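import Pool.Agent.Helper35.SHQ.Sheet

/-! # SHQ, row GR: the recursion (MP_0dfa80_co) -/

set_option autoImplicit false

namespace SHQ
open scoped ENNReal

namespace S34

theorem shf_right : ∀ x : W, Shf x [] x
  | [] => Shf.nil
  | c :: x => Shf.right c (shf_right x)

theorem lt_inj (p h : Fin 3) (hph : p ≠ h) (s t : Bool) (e : lt p h s = lt p h t) : s = t := by
  cases s <;> cases t <;> simp [lt] at e ⊢
  · exact hph e.symm
  · exact hph e

/-- a prefix code -/
theorem code_map (f : Bool → Fin 3) (g : Fin 3) (hf : ∀ s t, f s = f t → s = t)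
    (hg : ∀ t, f t ≠ g) : ∀ (y y' : List Bool) (x x' : W),
    (y.map f ++ [g]) ++ x = (y'.map f ++ [g]) ++ x' → y = y'
  | [], [], _, _, _ => rfl
  | [], t :: y', x, x', h => by
      simp at h
      exact absurd h.1.symm (hg t)
  | t :: y, [], x, x', h => by
      simp at h
      exact absurd h.1 (hg t)
  | t :: y, s :: y', x, x', h => by
      simp only [List.map_cons, List.cons_append, List.cons.injEq] at h
      rw [hf _ _ h.1, code_map f g hf hg y y' x x' h.2]

theorem code_rep (c : Fin 3) : ∀ (j j' : ℕ) (a a' : Fin 3) (x x' : W), a ≠ c → a' ≠ c →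
    (List.replicate j c ++ [a]) ++ x = (List.replicate j' c ++ [a']) ++ x' → j = j' ∧ a = a'
  | 0, 0, a, a', x, x', _, _, h => by
      simp at h
      exact ⟨rfl, h.1⟩
  | 0, j' + 1, a, a', x, x', ha, _, h => by
      simp [List.replicate_succ] at h
      exact absurd h.1 ha
  | j + 1, 0, a, a', x, x', _, ha', h => by
      simp [List.replicate_succ] at h
      exact absurd h.1.symm ha'
  | j + 1, j' + 1, a, a', x, x', ha, ha', h => by
      simp only [List.replicate_succ, List.cons_append, List.cons.injEq, true_and] at h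
      have h1 := code_rep c j j' a a' x x' ha ha' h
      exact ⟨by rw [h1.1], h1.2⟩

theorem le_Sg (z : ℝ≥0∞) (P : W → Prop) (a : Fin 3) (h : P [a]) : z ≤ Sg z P := by
  have h1 := ENNReal.le_tsum (f := fun x : W => {x | P x}.indicator (fun x => z ^ x.length) x) [a]
  have h2 : {x | P x}.indicator (fun x : W => z ^ x.length) [a] = z := by
    rw [Set.indicator_of_mem (show [a] ∈ {x | P x} from h)]
    simp
  exact h2.symm.le.trans h1

/-- the sum over `ℕ × Bool` -/
theorem tsum_nb (z : ℝ≥0∞) (A B : ℕ → ℝ≥0∞) :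
    ∑' i : ℕ × Bool, z ^ (i.1 + 1) * (if i.2 then A i.1 else B i.1) =
      ∑' j : ℕ, z ^ (j + 1) * (A j + B j) := by
  rw [ENNReal.tsum_prod (f := fun j b => z ^ (j + 1) * (if b = true then A j else B j))]
  refine tsum_congr fun j => ?_
  rw [tsum_bool]
  simp only [Bool.false_eq_true, if_false, if_true]
  rw [mul_add, add_comm]

end S34

open S34 in
theorem st_GR (hPEN : ST_PEN) (hPRE : ST_PRE) (hLNG : ST_LNG) (hSEM : ST_SEM) : ST_GR := by
  intro z
  obtain ⟨hP, hPu, -, -, -⟩ := hPEN
  obtain ⟨happ, -, -, hfix, -⟩ := hLNG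
  -- one step: read `x1` (into `a`, `d`) and go on
  have memapp : ∀ (T S : Tr) (u : W), u ∈ (T.app S).lang → ∃ t ∈ T.lang, ∃ s ∈ S.lang,
      u = t ++ s := by
    intro T S u hu
    rw [happ] at hu
    exact hu
  have hc1 : ∀ c : Fin 3, c + 1 ≠ c := by decide
  have hc2 : ∀ c : Fin 3, c + 2 ≠ c := by decide
  have hc12 : ∀ c : Fin 3, c + 1 ≠ c + 2 := by decide
  refine ⟨?_, ?_, ?_, ?_, ?_, ?_, ?_, ?_⟩
  · intro p T
    have h1 := hPRE z Unit (fun _ => []) (fun _ x => ∃ u ∈ T.lang, Pend u x)
      (fun x => ∃ u ∈ T.lang, Pend (p :: u) (p :: x)) (fun _ _ _ _ _ => rfl) (by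
        rintro _ x ⟨u, hu, hx⟩
        refine ⟨u, hu, ?_⟩
        have h2 := hP [p] [p] [] u x (Shf.left p Shf.nil) (by rw [List.append_nil]; exact hx)
        exact h2)
    simpa [F, G] using h1
  · intro p g T hgp
    have hth : ∀ p g : Fin 3, g ≠ p → p ≠ th p g ∧ (∀ t, lt p (th p g) t ≠ g) := by decide
    have h1 := hPRE z (List Bool) (fun y => y.map (lt p (th p g)) ++ [g])
      (fun y x => ∃ u ∈ (T.app (D2 p g y).1).lang, Pend (g :: u) (g :: x))
      (fun x => ∃ u ∈ (Tr.one g T).lang, Pend (p :: u) (p :: x))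
      (fun y y' x x' h => code_map _ g (lt_inj p _ (hth p g hgp).1) (hth p g hgp).2 y y' x x' h)
      (by
        rintro y x ⟨u, hu, hx⟩
        obtain ⟨t, ht, d, hd, rfl⟩ := memapp _ _ _ hu
        refine ⟨g :: t, ⟨t, ht, rfl⟩, ?_⟩
        have h2 := hP (p :: y.map (lt p (th p g))) [p] d (g :: t) (g :: x)
          ((hSEM p g hgp y).1 d hd) hx
        simpa using h2)
    simpa [G] using h1
  · intro p T
    have hl : ∀ p : Fin 3, p + 1 ≠ p + 2 ∧ (∀ t, lt (p + 1) (p + 2) t ≠ p) := by decide
    have h1 := hPRE z (List Bool) (fun y => y.map (lt (p + 1) (p + 2)) ++ [p])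
      (fun y x => ∃ u ∈ (T.app (fix (y.map (lt (p + 1) (p + 2))))).lang, Pend (p :: u) (p :: x))
      (fun x => ∃ u ∈ (Tr.one p T).lang, Pend (p :: u) (p :: x))
      (fun y y' x x' h => code_map _ p (lt_inj _ _ (hl p).1) (hl p).2 y y' x x' h)
      (by
        rintro y x ⟨u, hu, hx⟩
        obtain ⟨t, ht, d, hd, rfl⟩ := memapp _ _ _ hu
        rw [hfix, Set.mem_singleton_iff] at hd
        subst hd
        refine ⟨p :: t, ⟨t, ht, rfl⟩, ?_⟩
        have h2 := hP (p :: y.map (lt (p + 1) (p + 2))) [p] (y.map (lt (p + 1) (p + 2)))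
          (p :: t) (p :: x) (Shf.left p (shf_right _)) hx
        simpa using h2)
    simpa [G] using h1
  · intro p c T T'
    have h1 := hPRE z (ℕ × Bool)
      (fun i => List.replicate i.1 c ++ [if i.2 then c + 1 else c + 2])
      (fun i x => if i.2 then
        ∃ u ∈ (T.app (fix (List.replicate i.1 c))).lang, Pend ((c + 1) :: u) ((c + 1) :: x)
        else ∃ u ∈ (T'.app (fix (List.replicate i.1 c))).lang,
          Pend ((c + 2) :: u) ((c + 2) :: x))
      (fun x => ∃ u ∈ (Tr.two c T T').lang, Pend (p :: u) (p :: x))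
      (by
        rintro ⟨j, b⟩ ⟨j', b'⟩ x x' h
        have h2 := code_rep c j j' _ _ x x' (by cases b <;> simp [hc1, hc2])
          (by cases b' <;> simp [hc1, hc2]) h
        have h3 : b = b' := by
          have h4 := h2.2
          cases b <;> cases b'
          · rfl
          · exact absurd h4.symm (by simp)
          · exact absurd h4 (by simp)
          · rfl
        rw [h2.1, h3])
      (by
        rintro ⟨j, b⟩ x hQ
        cases b
        · obtain ⟨u, hu, hx⟩ : ∃ u ∈ (T'.app (fix (List.replicate j c))).lang,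
            Pend ((c + 2) :: u) ((c + 2) :: x) := by simpa using hQ
          obtain ⟨t, ht, d, hd, rfl⟩ := memapp _ _ _ hu
          rw [hfix, Set.mem_singleton_iff] at hd
          subst hd
          refine ⟨(c + 2) :: t, Or.inr ⟨t, ht, rfl⟩, ?_⟩
          have h2 := hP (p :: List.replicate j c) [p] (List.replicate j c)
            ((c + 2) :: t) ((c + 2) :: x) (Shf.left p (shf_right _)) hx
          simpa using h2
        · obtain ⟨u, hu, hx⟩ : ∃ u ∈ (T.app (fix (List.replicate j c))).lang,
            Pend ((c + 1) :: u) ((c + 1) :: x) := by simpa using hQ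
          obtain ⟨t, ht, d, hd, rfl⟩ := memapp _ _ _ hu
          rw [hfix, Set.mem_singleton_iff] at hd
          subst hd
          refine ⟨(c + 1) :: t, Or.inl ⟨t, ht, rfl⟩, ?_⟩
          have h2 := hP (p :: List.replicate j c) [p] (List.replicate j c)
            ((c + 1) :: t) ((c + 1) :: x) (Shf.left p (shf_right _)) hx
          simpa using h2)
    rw [← tsum_nb z (fun j => G z (c + 1) (T.app (fix (List.replicate j c))))
      (fun j => G z (c + 2) (T'.app (fix (List.replicate j c))))]
    refine le_trans (le_of_eq (tsum_congr ?_)) h1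
    rintro ⟨j, b⟩
    cases b <;> simp [G]
  · intro g T
    have h1 := hPRE z Unit (fun _ => [g + 1, g])
      (fun _ x => ∃ u ∈ (T.app (.one (g + 1) .nil)).lang, Pend (g :: u) (g :: x))
      (fun x => ∃ u ∈ (Tr.one g T).lang, Pend u x) (fun _ _ _ _ _ => rfl) (by
        rintro _ x ⟨u, hu, hx⟩
        obtain ⟨t, ht, d, hd, rfl⟩ := memapp _ _ _ hu
        obtain ⟨d', hd', rfl⟩ := hd
        have hd'' : d' = [] := hd'
        subst hd''
        refine ⟨g :: t, ⟨t, ht, rfl⟩, ?_⟩
        have h2 := hP [g + 1] [] [g + 1] (g :: t) (g :: x) (shf_right _) hx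
        simpa using h2)
    simpa [F, G] using h1
  · intro c T T'
    have h1 := hPRE z Bool (fun b => [c, if b then c + 1 else c + 2])
      (fun b x => if b then
        ∃ u ∈ (T.app (.one c .nil)).lang, Pend ((c + 1) :: u) ((c + 1) :: x)
        else ∃ u ∈ (T'.app (.one c .nil)).lang, Pend ((c + 2) :: u) ((c + 2) :: x))
      (fun x => ∃ u ∈ (Tr.two c T T').lang, Pend u x)
      (by
        intro b b' x x' h
        cases b <;> cases b'
        · rfl
        · simp at h
        · simp at h
        · rfl)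
      (by
        intro b x hQ
        cases b
        · obtain ⟨u, hu, hx⟩ : ∃ u ∈ (T'.app (.one c .nil)).lang,
            Pend ((c + 2) :: u) ((c + 2) :: x) := by simpa using hQ
          obtain ⟨t, ht, d, hd, rfl⟩ := memapp _ _ _ hu
          obtain ⟨d', hd', rfl⟩ := hd
          have hd'' : d' = [] := hd'
          subst hd''
          refine ⟨(c + 2) :: t, Or.inr ⟨t, ht, rfl⟩, ?_⟩
          have h2 := hP [c] [] [c] ((c + 2) :: t) ((c + 2) :: x) (shf_right _) hx
          simpa using h2
        · obtain ⟨u, hu, hx⟩ : ∃ u ∈ (T.app (.one c .nil)).lang,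
            Pend ((c + 1) :: u) ((c + 1) :: x) := by simpa using hQ
          obtain ⟨t, ht, d, hd, rfl⟩ := memapp _ _ _ hu
          obtain ⟨d', hd', rfl⟩ := hd
          have hd'' : d' = [] := hd'
          subst hd''
          refine ⟨(c + 1) :: t, Or.inl ⟨t, ht, rfl⟩, ?_⟩
          have h2 := hP [c] [] [c] ((c + 1) :: t) ((c + 1) :: x) (shf_right _) hx
          simpa using h2)
    rw [tsum_bool] at h1
    refine le_trans (le_of_eq ?_) h1
    simp only [G, Bool.false_eq_true, if_false, if_true, List.length_cons, List.length_nil]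
    rw [mul_add, add_comm]
  · intro g T
    have h1 := hPRE z ℕ (fun j => List.replicate j (g + 1) ++ [g])
      (fun j x => ∃ u ∈ (T.app (fix (List.replicate j (g + 1)))).lang, Pend (g :: u) (g :: x))
      (fun x => ∃ u ∈ (Tr.one g T).lang, Pend u x)
      (fun j j' x x' h => (code_rep (g + 1) j j' g g x x' (hc1 g).symm (hc1 g).symm h).1)
      (by
        rintro j x ⟨u, hu, hx⟩
        obtain ⟨t, ht, d, hd, rfl⟩ := memapp _ _ _ hu
        rw [hfix, Set.mem_singleton_iff] at hd
        subst hd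
        refine ⟨g :: t, ⟨t, ht, rfl⟩, ?_⟩
        have h2 := hP (List.replicate j (g + 1)) [] (List.replicate j (g + 1))
          (g :: t) (g :: x) (shf_right _) hx
        simpa using h2)
    simpa [F, G] using h1
  · intro g T
    refine ⟨le_Sg z _ g ⟨[g], ⟨[], rfl, rfl⟩, hPu _⟩,
      le_Sg z _ (g + 1) ⟨[g + 1], Or.inl ⟨[], rfl, rfl⟩, hPu _⟩,
      le_Sg z _ (g + 2) ⟨[g + 2], Or.inr ⟨[], rfl, rfl⟩, hPu _⟩⟩

end SHQ
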